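import Pool.Agent.H648.Q.Defs

/-!
Project Q648, part D2: up to sign, every residue class prime to `M` contains a residue class of
primes modulo which the negative integer `D` is a square.
-/

set_option autoImplicit false

namespace Pool.Agent.H643.Q648

open Pool.Agent.H648.Q (S_CLS)
open scoped NumberTheorySymbols

/-- primes in a class with symbol `1` -/
lemma split_of_class {D : ℤ} {N r : ℕ} (hN : 4 * D.natAbs ∣ N) (hr : Nat.Coprime r N)
    (hJ : J(D | r) = 1) (hodd : Odd r) (q : ℕ) (hq : q.Prime) (hqr : q ≡ r [MOD N]) :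
    q ≠ 2 ∧ ∃ x : ZMod q, x * x = (D : ZMod q) := by
  have : Fact q.Prime := ⟨hq⟩
  have h4 : q ≡ r [MOD 4 * D.natAbs] := hqr.of_dvd hN
  have h2 : q ≡ r [MOD 2] := by
    have h5 : (2 : ℕ) ∣ 4 * D.natAbs := Dvd.dvd.mul_right (by norm_num) _
    exact h4.of_dvd h5
  have hqodd : Odd q := by
    rw [Nat.odd_iff] at hodd ⊢
    have h6 : q % 2 = r % 2 := h2
    rw [h6, hodd]
  have hq2 : q ≠ 2 := by
    rintro rfl
    exact absurd hqodd (by decide)
  refine ⟨hq2, ?_⟩
  have h1 : J(D | q) = 1 := by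
    rw [jacobiSym.mod_right D hqodd]
    have h7 : q % (4 * D.natAbs) = r % (4 * D.natAbs) := h4
    rw [h7, ← jacobiSym.mod_right D hodd, hJ]
  rw [← jacobiSym.legendreSym.to_jacobiSym] at h1
  have h5 : (D : ZMod q) ≠ 0 := by
    intro h6
    rw [(legendreSym.eq_zero_iff q D).2 h6] at h1
    exact one_ne_zero h1.symm
  obtain ⟨s, hs⟩ := (legendreSym.eq_one_iff q h5).1 h1
  exact ⟨s, hs.symm⟩

/-- the symbol of a negative `D` at `4|D| - 1` -/
lemma jac_neg {A : ℕ} (hA : 1 ≤ A) : J(-(A : ℤ) | 4 * A - 1) = -1 := by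
  have hodd : Odd (4 * A - 1) := by
    rw [Nat.odd_iff]; omega
  rw [jacobiSym.neg _ hodd]
  have h1 : ZMod.χ₄ ((4 * A - 1 : ℕ) : ZMod 4) = -1 :=
    ZMod.χ₄_nat_three_mod_four (by omega)
  have h2 : J((A : ℤ) | 4 * A - 1) = 1 := by
    have h3 : J(((2 : ℤ) ^ 2 * (A : ℤ)) | 4 * A - 1) = 1 := by
      have h4 : ((2 : ℤ) ^ 2 * (A : ℤ)) % ((4 * A - 1 : ℕ) : ℤ) =
          (1 : ℤ) % ((4 * A - 1 : ℕ) : ℤ) := by
        have h5 : ((2 : ℤ) ^ 2 * (A : ℤ)) = 1 + ((4 * A - 1 : ℕ) : ℤ) * 1 := by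
          have h6 : ((4 * A - 1 : ℕ) : ℤ) = 4 * (A : ℤ) - 1 := by
            push_cast [Nat.cast_sub (show 1 ≤ 4 * A by omega)]
            ring
          rw [h6]; ring
        rw [h5, Int.add_mul_emod_self_left]
      rw [jacobiSym.mod_left' h4, jacobiSym.one_left]
    rw [jacobiSym.mul_left] at h3
    have h7 : Int.gcd 2 ((4 * A - 1 : ℕ) : ℤ) = 1 := by
      have h8 : Nat.Coprime 2 (4 * A - 1) := (Nat.coprime_two_left).2 hodd
      exact h8
    rw [jacobiSym.sq_one' h7, one_mul] at h3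
    exact h3
  rw [h1, h2]
  norm_num

/-- D2 -/
theorem cls {D : ℤ} (hD : D < 0) : S_CLS D := by
  intro M ρ hM hρ
  set A : ℕ := D.natAbs with hA
  have hA1 : 1 ≤ A := by omega
  have hDA : D = -(A : ℤ) := by omega
  set N : ℕ := 4 * A * M with hN
  have hAM : 1 ≤ A * M := Nat.mul_pos hA1 hM
  have hN4 : 4 ≤ N := by
    have : N = 4 * (A * M) := by rw [hN]; ring
    omega
  have hMN : M ∣ N := Dvd.intro_left _ rfl
  have h4N : 4 * D.natAbs ∣ N := Dvd.intro _ rfl
  have : NeZero N := ⟨by omega⟩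
  have : NeZero M := ⟨by omega⟩
  -- the class
  have hu : IsUnit ((ρ : ℤ) : ZMod M) := by
    rw [ZMod.coe_int_isUnit_iff_isCoprime]
    exact (Int.isCoprime_iff_gcd_eq_one.2 hρ).symm
  obtain ⟨u, hu⟩ := hu
  obtain ⟨v, hv⟩ := ZMod.unitsMap_surjective hMN u
  set r₀ : ℕ := (v : ZMod N).val with hr₀
  have hr₀N : Nat.Coprime r₀ N := ZMod.val_coe_unit_coprime v
  have hr₀M : (M : ℤ) ∣ (r₀ : ℤ) - ρ := by
    rw [← ZMod.intCast_zmod_eq_zero_iff_dvd]
    push_cast
    rw [← hu, ← hv, ZMod.unitsMap_val, hr₀, ← ZMod.cast_eq_val]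
    simp
  have hodd : Odd r₀ := by
    have h2 : (2 : ℕ) ∣ N := by
      rw [hN, mul_assoc]; exact Dvd.dvd.mul_right (by norm_num) _
    have h3 : Nat.Coprime r₀ 2 := Nat.Coprime.coprime_dvd_right h2 hr₀N
    exact Nat.coprime_two_right.1 h3
  have hgcd : Int.gcd D r₀ = 1 := by
    have h2 : A ∣ N := by rw [hN, mul_comm 4 A, mul_assoc]; exact Dvd.intro _ rfl
    have h3 : Nat.Coprime r₀ A := Nat.Coprime.coprime_dvd_right h2 hr₀N
    have h4 : Nat.gcd A r₀ = 1 := h3.symm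
    simpa [Int.gcd, hA] using h4
  rcases jacobiSym.eq_one_or_neg_one hgcd with h1 | h1
  · refine ⟨1, Or.inl rfl, N, r₀, by omega, hr₀N, hMN, ?_, ?_⟩
    · rw [one_mul]; exact hr₀M
    · intro q hq hqr
      exact split_of_class h4N hr₀N h1 hodd q hq hqr
  · have hN1 : Nat.Coprime (N - 1) N := by
      have h2 : Nat.Coprime (N - 1) (N - 1 + 1) := by simp
      rwa [Nat.sub_add_cancel (by omega)] at h2
    have hrN : Nat.Coprime (r₀ * (N - 1)) N := Nat.Coprime.mul_left hr₀N hN1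
    have hoddN : Odd (N - 1) := by
      have : N = 4 * (A * M) := by rw [hN]; ring
      rw [Nat.odd_iff]; omega
    have hJN : J(D | N - 1) = -1 := by
      rw [jacobiSym.mod_right D hoddN]
      have h2 : (N - 1) % (4 * D.natAbs) = 4 * A - 1 := by
        have h3 : N - 1 = (4 * A - 1) + (4 * A) * (M - 1) := by
          obtain ⟨k, rfl⟩ : ∃ k, M = k + 1 := ⟨M - 1, by omega⟩
          have h4 : N = 4 * A + 4 * A * k := by rw [hN]; ring
          rw [h4]
          simp only [Nat.add_sub_cancel]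
          omega
        rw [h3, ← hA, Nat.add_mul_mod_self_left]
        exact Nat.mod_eq_of_lt (by omega)
      rw [h2, hDA]
      exact jac_neg hA1
    have hJr : J(D | r₀ * (N - 1)) = 1 := by
      have hr0 : r₀ ≠ 0 := by
        rintro h0
        rw [h0] at hodd
        exact absurd hodd (by decide)
      rw [jacobiSym.mul_right' D hr0 (by omega), h1, hJN]
      norm_num
    refine ⟨-1, Or.inr rfl, N, r₀ * (N - 1), by omega, hrN, hMN, ?_, ?_⟩
    · have h2 : ((r₀ * (N - 1) : ℕ) : ℤ) - -1 * ρ = (r₀ : ℤ) * (N : ℤ) - ((r₀ : ℤ) - ρ) := by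
        push_cast [Nat.cast_sub (show 1 ≤ N by omega)]
        ring
      rw [h2]
      refine dvd_sub ?_ hr₀M
      exact Dvd.dvd.mul_left (by exact_mod_cast hMN) _
    · intro q hq hqr
      exact split_of_class h4N hrN hJr (hodd.mul hoddN) q hq hqr

end Pool.Agent.H643.Q648
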