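import Pool.Agent.H648.Q.Defs

/-!
Project Q648, part D1: the sieve for roots of `n^2 + t n + c` modulo `d` with a finite set of
split primes (`q ≠ 2` and `t^2 - 4c` a square modulo `q`). Port of
`Pool.Graph.R_seed8.W976.GT.Sift`.
-/

set_option autoImplicit false

namespace Pool.Agent.H643.Q648

open Finset
open Pool.Agent.W78.GT
open Pool.Agent.W976.GT (Fq Fq_dvd_iff tq card_class Rq eq_of_mod Bq exists_data data_inj)
open Pool.Agent.H648.Q (S_SFT)

/-- a root direction modulo `q` -/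
lemma root_dir {a b c' D : ℤ} {q : ℕ} (hq : q.Prime) (h : q ≠ 2 ∧ ∃ s : ZMod q, s * s = (D : ZMod q))
    (hD : b ^ 2 - 4 * a * c' = D) : (q : ℤ) ∣ a ∨ ∃ k : ℤ, (q : ℤ) ∣ Fq a b c' k 1 := by
  by_cases ha : (q : ℤ) ∣ a
  · exact Or.inl ha
  refine Or.inr ?_
  have : Fact q.Prime := ⟨hq⟩
  obtain ⟨hq2, s, hs⟩ := h
  have ha' : (a : ZMod q) ≠ 0 := by
    rwa [Ne, ZMod.intCast_zmod_eq_zero_iff_dvd] at *
  have h2 : (2 : ZMod q) ≠ 0 := by
    intro h0
    have : ((2 : ℕ) : ZMod q) = 0 := by exact_mod_cast h0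
    rw [ZMod.natCast_eq_zero_iff] at this
    exact hq2 ((Nat.prime_dvd_prime_iff_eq hq Nat.prime_two).1 this)
  set z : ZMod q := (s - b) / (2 * a) with hz
  obtain ⟨k, hk⟩ := ZMod.intCast_surjective z
  refine ⟨k, ?_⟩
  rw [← ZMod.intCast_zmod_eq_zero_iff_dvd]
  unfold Fq
  push_cast
  rw [hk]
  have hDz : (b : ZMod q) ^ 2 - 4 * a * c' = s * s := by
    rw [hs, ← hD]
    push_cast
    ring
  have h3 : 2 * a * z = s - b := by
    rw [hz]
    field_simp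
  have h4 : (4 * a : ZMod q) * (a * z ^ 2 + b * z * 1 + c' * 1 ^ 2) = 0 := by
    have : (4 * a : ZMod q) * (a * z ^ 2 + b * z * 1 + c' * 1 ^ 2) =
        (2 * a * z) ^ 2 + 2 * b * (2 * a * z) + 4 * a * c' := by ring
    rw [this, h3]
    linear_combination -hDz
  have h5 : (4 * a : ZMod q) ≠ 0 := by
    have : (4 * a : ZMod q) = 2 * 2 * a := by ring
    rw [this]
    exact mul_ne_zero (mul_ne_zero h2 h2) ha'
  have h6 := (mul_eq_zero.1 h4).resolve_left h5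
  simpa using h6

lemma card_tq {a b c' D : ℤ} {q : ℕ} (hq : q.Prime) (h : q ≠ 2 ∧ ∃ s : ZMod q, s * s = (D : ZMod q))
    (hD : b ^ 2 - 4 * a * c' = D) : ((tq a b c' q).card : ℝ) ≤ (q : ℝ) ^ 2 * (1 - 1 / (q : ℝ)) := by
  have hq0 : (0 : ℤ) < q := by exact_mod_cast hq.pos
  have hz : q ≤ (((Ico (0 : ℤ) q) ×ˢ (Ico (0 : ℤ) q)).filter
      (fun p => (q : ℤ) ∣ Fq a b c' p.1 p.2)).card := by
    have hc : (Ico (0 : ℤ) q).card = q := by simp
    rcases root_dir hq h hD with h1 | ⟨k, hk⟩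
    · calc q = (Ico (0 : ℤ) q).card := hc.symm
        _ ≤ _ := by
          refine Finset.card_le_card_of_injOn (fun x => (x, 0)) ?_ ?_
          · intro x hx
            simp only [coe_filter, Set.mem_ofPred_eq, mem_product]
            refine ⟨⟨hx, by simp [hq.pos]⟩, ?_⟩
            unfold Fq
            simp only [mul_zero, ne_eq, OfNat.ofNat_ne_zero, not_false_eq_true, zero_pow, add_zero]
            exact Dvd.dvd.mul_right h1 _
          · intro x _ y _ hxy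
            simpa using hxy
    · calc q = (Ico (0 : ℤ) q).card := hc.symm
        _ ≤ _ := by
          refine Finset.card_le_card_of_injOn (fun y => ((k * y) % q, y)) ?_ ?_
          · intro y hy
            simp only [coe_filter, Set.mem_ofPred_eq, mem_product]
            refine ⟨⟨?_, hy⟩, ?_⟩
            · rw [Finset.mem_Ico]
              exact ⟨Int.emod_nonneg _ hq0.ne', Int.emod_lt_of_pos _ hq0⟩
            · have e1 : (q : ℤ) ∣ (k * y) % q - k * y := by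
                have : (q : ℤ) ∣ k * y - (k * y) % q := Int.dvd_self_sub_emod
                have h3 := (dvd_neg.2 this)
                simpa using h3
              rw [Fq_dvd_iff e1 (show (q : ℤ) ∣ y - y by simp)]
              have e2 : Fq a b c' (k * y) y = y ^ 2 * Fq a b c' k 1 := by
                unfold Fq; ring
              rw [e2]
              exact Dvd.dvd.mul_left hk _
          · intro x _ y _ hxy
            have := congrArg Prod.snd hxy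
            simpa using this
  have hsum := Finset.card_filter_add_card_filter_not
    (s := (Ico (0 : ℤ) q) ×ˢ (Ico (0 : ℤ) q)) (fun p : ℤ × ℤ => (q : ℤ) ∣ Fq a b c' p.1 p.2)
  have htot : ((Ico (0 : ℤ) q) ×ˢ (Ico (0 : ℤ) q)).card = q * q := by
    rw [Finset.card_product]; simp
  rw [htot] at hsum
  have h1 : (tq a b c' q).card + q ≤ q * q := by
    unfold tq
    omega
  have hqr : (0 : ℝ) < q := by exact_mod_cast hq.pos
  have h2 : ((tq a b c' q).card : ℝ) + q ≤ q * q := by exact_mod_cast h1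
  have h3 : (q : ℝ) ^ 2 * (1 - 1 / (q : ℝ)) = q * q - q := by
    field_simp
  rw [h3]
  linarith

lemma card_Rq {a b c' D : ℤ} {Q : Finset ℕ} (hQ : ∀ q ∈ Q, q.Prime ∧ q ≠ 2 ∧ ∃ s : ZMod q, s * s = (D : ZMod q))
    (hD : b ^ 2 - 4 * a * c' = D) : ((Rq a b c' Q).card : ℝ) ≤
      ((∏ q ∈ Q, q : ℕ) : ℝ) ^ 2 * ∏ q ∈ Q, (1 - 1 / (q : ℝ)) := by
  have h1 : (Rq a b c' Q).card ≤ (Q.pi (fun q => tq a b c' q)).card := by
    refine Finset.card_le_card_of_injOn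
      (fun p => fun q _ => (p.1 % (q : ℤ), p.2 % (q : ℤ))) ?_ ?_
    · intro p hp
      simp only [Rq, coe_filter, Set.mem_ofPred_eq] at hp
      rw [Finset.mem_coe, Finset.mem_pi]
      intro q hq
      have hq0 : (0 : ℤ) < q := by exact_mod_cast (hQ q hq).1.pos
      simp only [tq, mem_filter, mem_product, Finset.mem_Ico]
      refine ⟨⟨⟨Int.emod_nonneg _ hq0.ne', Int.emod_lt_of_pos _ hq0⟩,
        ⟨Int.emod_nonneg _ hq0.ne', Int.emod_lt_of_pos _ hq0⟩⟩, ?_⟩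
      rw [← Fq_dvd_iff (x := p.1) (y := p.2) Int.dvd_self_sub_emod Int.dvd_self_sub_emod]
      exact hp.2 q hq
    · intro p hp p' hp' hpp
      simp only [Rq, coe_filter, Set.mem_ofPred_eq, mem_product] at hp hp'
      have h2 : ∀ q ∈ Q, (p.1 % (q : ℤ), p.2 % (q : ℤ)) = (p'.1 % (q : ℤ), p'.2 % (q : ℤ)) := by
        intro q hq
        exact congrFun (congrFun hpp q) hq
      refine Prod.ext ?_ ?_
      · exact eq_of_mod (fun q hq => (hQ q hq).1) hp.1.1 hp'.1.1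
          (fun q hq => congrArg Prod.fst (h2 q hq))
      · exact eq_of_mod (fun q hq => (hQ q hq).1) hp.1.2 hp'.1.2
          (fun q hq => congrArg Prod.snd (h2 q hq))
  rw [Finset.card_pi] at h1
  calc ((Rq a b c' Q).card : ℝ) ≤ ((∏ q ∈ Q, (tq a b c' q).card : ℕ) : ℝ) := by exact_mod_cast h1
    _ = ∏ q ∈ Q, ((tq a b c' q).card : ℝ) := by push_cast; rfl
    _ ≤ ∏ q ∈ Q, ((q : ℝ) ^ 2 * (1 - 1 / (q : ℝ))) := by
        refine Finset.prod_le_prod (fun _ _ => by positivity) fun q hq => ?_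
        exact card_tq (hQ q hq).1 (hQ q hq).2 hD
    _ = _ := by
        rw [Finset.prod_mul_distrib, Finset.prod_pow]
        push_cast
        rfl

lemma card_Bq {a b c' D : ℤ} {Q : Finset ℕ} (hQ : ∀ q ∈ Q, q.Prime ∧ q ≠ 2 ∧ ∃ s : ZMod q, s * s = (D : ZMod q))
    (hD : b ^ 2 - 4 * a * c' = D) {L : ℕ} (hL : (∏ q ∈ Q, q) ≤ L) : ((Bq a b c' Q L).card : ℝ) ≤
      9 * (L : ℝ) ^ 2 * ∏ q ∈ Q, (1 - 1 / (q : ℝ)) := by
  set N : ℕ := ∏ q ∈ Q, q with hN
  have hNpos : 0 < N := Finset.prod_pos fun q hq => (hQ q hq).1.pos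
  have hN0 : (0 : ℤ) < N := by exact_mod_cast hNpos
  have h1 : (Bq a b c' Q L).card ≤ (2 * L / N + 1) ^ 2 * (Rq a b c' Q).card := by
    refine Finset.card_le_mul_card_image_of_maps_to
      (f := fun p : ℤ × ℤ => (p.1 % (N : ℤ), p.2 % (N : ℤ))) ?_ _ ?_
    · intro p hp
      simp only [Bq, mem_filter] at hp
      simp only [Rq, mem_filter, mem_product, Finset.mem_Ico]
      refine ⟨⟨⟨Int.emod_nonneg _ hN0.ne', Int.emod_lt_of_pos _ hN0⟩,
        ⟨Int.emod_nonneg _ hN0.ne', Int.emod_lt_of_pos _ hN0⟩⟩, ?_⟩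
      intro q hq
      have hd : (q : ℤ) ∣ N := by
        exact_mod_cast Finset.dvd_prod_of_mem _ hq
      rw [← Fq_dvd_iff (x := p.1) (y := p.2) (hd.trans Int.dvd_self_sub_emod)
        (hd.trans Int.dvd_self_sub_emod)]
      exact hp.2 q hq
    · intro r _
      calc ((Bq a b c' Q L).filter (fun p : ℤ × ℤ => (p.1 % (N : ℤ), p.2 % (N : ℤ)) = r)).card
          ≤ (((Icc (-(L : ℤ)) L).filter (fun x => x % (N : ℤ) = r.1)) ×ˢ
            ((Icc (-(L : ℤ)) L).filter (fun x => x % (N : ℤ) = r.2))).card := by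
            apply Finset.card_le_card
            intro p hp
            simp only [Bq, mem_filter, mem_product] at hp ⊢
            exact ⟨⟨hp.1.1.1, congrArg Prod.fst hp.2⟩, hp.1.1.2, congrArg Prod.snd hp.2⟩
        _ ≤ (2 * L / N + 1) ^ 2 := by
            rw [Finset.card_product, pow_two]
            exact Nat.mul_le_mul (card_class L N hNpos _) (card_class L N hNpos _)
  have hNr : (0 : ℝ) < N := by exact_mod_cast hNpos
  have hLr : (N : ℝ) ≤ L := by exact_mod_cast hL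
  have h2 : ((2 * L / N + 1 : ℕ) : ℝ) ≤ 3 * (L : ℝ) / N := by
    have h3 : ((2 * L / N : ℕ) : ℝ) ≤ (2 * L : ℝ) / N := by
      have := Nat.cast_div_le (α := ℝ) (m := 2 * L) (n := N)
      push_cast at this
      exact this
    have h4 : (1 : ℝ) ≤ L / N := by rwa [le_div_iff₀ hNr, one_mul]
    push_cast
    have h5 : 3 * (L : ℝ) / N = 2 * L / N + L / N := by ring
    rw [h5]
    linarith
  have h6 := card_Rq hQ hD
  have hprod : 0 ≤ ∏ q ∈ Q, (1 - 1 / (q : ℝ)) := by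
    refine Finset.prod_nonneg fun q hq => ?_
    have : (1 : ℝ) ≤ q := by exact_mod_cast (hQ q hq).1.pos
    have : 1 / (q : ℝ) ≤ 1 := by
      rw [div_le_one (by linarith)]
      exact this
    linarith
  calc ((Bq a b c' Q L).card : ℝ) ≤ ((2 * L / N + 1 : ℕ) : ℝ) ^ 2 * ((Rq a b c' Q).card : ℝ) := by
        exact_mod_cast h1
    _ ≤ (3 * (L : ℝ) / N) ^ 2 * ((N : ℝ) ^ 2 * ∏ q ∈ Q, (1 - 1 / (q : ℝ))) := by
        refine mul_le_mul ?_ h6 (by positivity) (by positivity)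
        exact pow_le_pow_left₀ (by positivity) h2 2
    _ = 9 * (L : ℝ) ^ 2 * ∏ q ∈ Q, (1 - 1 / (q : ℝ)) := by
        field_simp
        ring

theorem sft_of {t c : ℤ} (hrep : S_REP t c) : S_SFT t c := by
  classical
  obtain ⟨C, hC1, hC⟩ := hrep
  have hCr : (1 : ℝ) ≤ C := by exact_mod_cast hC1
  refine ⟨9 * C * (2 * C + 1) ^ 3, by positivity, ?_⟩
  intro Q hQ
  set N : ℕ := ∏ q ∈ Q, q with hN
  refine ⟨(N : ℝ) ^ 2 + 1, fun X hX => ?_⟩
  have hX0 : 0 ≤ X := by nlinarith [sq_nonneg (N : ℝ)]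
  have hCX : (N : ℝ) ^ 2 ≤ C * X := by nlinarith [sq_nonneg (N : ℝ)]
  have hCX0 : 0 ≤ (C : ℝ) * X := by positivity
  set L : ℕ := ⌊Real.sqrt (C * X)⌋₊ with hL
  have hNL : N ≤ L := by
    apply Nat.le_floor
    exact Real.le_sqrt_of_sq_le hCX
  have hL2 : (L : ℝ) ^ 2 ≤ C * X := by
    have h1 : (L : ℝ) ≤ Real.sqrt (C * X) := Nat.floor_le (Real.sqrt_nonneg _)
    calc (L : ℝ) ^ 2 ≤ Real.sqrt (C * X) ^ 2 := pow_le_pow_left₀ (by positivity) h1 2
      _ = C * X := Real.sq_sqrt hCX0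
  have hbox : ∀ (v : ℤ) (d : ℕ), (d : ℝ) ≤ X → v ^ 2 ≤ C * d → v ∈ Icc (-(L : ℤ)) L := by
    intro v d hd hv
    have h1 : ((v.natAbs : ℕ) : ℝ) ^ 2 ≤ C * X := by
      have h2 : ((v.natAbs : ℤ)) ^ 2 = v ^ 2 := Int.natAbs_sq v
      have h3 : ((v.natAbs : ℤ)) ^ 2 ≤ C * d := by rw [h2]; exact hv
      have h4 : ((v.natAbs : ℕ) : ℝ) ^ 2 ≤ C * d := by exact_mod_cast h3
      refine h4.trans ?_
      exact mul_le_mul_of_nonneg_left hd (by positivity)
    have h5 : v.natAbs ≤ L := Nat.le_floor (Real.le_sqrt_of_sq_le h1)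
    rw [Finset.mem_Icc]
    omega
  have hdata : ∀ e : ℕ × ℤ, ∃ φ : (Σ _ : ℤ × ℤ × ℤ, ℤ × ℤ), e ∈ rts t c X →
      (|φ.1.1| ≤ C ∧ |φ.1.2.1| ≤ C ∧ |φ.1.2.2| ≤ C ∧
      φ.1.2.1 ^ 2 - 4 * φ.1.1 * φ.1.2.2 = t ^ 2 - 4 * c ∧
      φ.2.1 ^ 2 + φ.2.2 ^ 2 ≤ C * e.1 ∧
      φ.1.1 * φ.2.1 ^ 2 + φ.1.2.1 * φ.2.1 * φ.2.2 + φ.1.2.2 * φ.2.2 ^ 2 = e.1 ∧
      ∃ u₁ u₂ k : ℤ, φ.2.1 * u₂ - φ.2.2 * u₁ = 1 ∧
        2 * φ.1.1 * φ.2.1 * u₁ + φ.1.2.1 * (φ.2.1 * u₂ + φ.2.2 * u₁) + 2 * φ.1.2.2 * φ.2.2 * u₂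
          = 2 * (e.2 + k * e.1) + t) := by
    intro e
    by_cases he : e ∈ rts t c X
    · obtain ⟨a, b, c', v₁, v₂, u₁, u₂, k, a1, a2, a3, a4, a5, a6, a7, a8⟩ := exists_data hC he
      exact ⟨⟨(a, b, c'), (v₁, v₂)⟩, fun _ => ⟨a1, a2, a3, a4, a6, a7, u₁, u₂, k, a5, a8⟩⟩
    · exact ⟨⟨(0, 0, 0), (0, 0)⟩, fun h => absurd h he⟩
  choose g hg using hdata
  set forms : Finset (ℤ × ℤ × ℤ) := ((Icc (-(C : ℤ)) C) ×ˢ ((Icc (-(C : ℤ)) C) ×ˢ
    (Icc (-(C : ℤ)) C))).filter (fun F => F.2.1 ^ 2 - 4 * F.1 * F.2.2 = t ^ 2 - 4 * c) with hforms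
  have hfc : forms.card ≤ (2 * C + 1) ^ 3 := by
    refine (Finset.card_filter_le _ _).trans ?_
    rw [Finset.card_product, Finset.card_product, Int.card_Icc]
    have : ((C : ℤ) + 1 - -(C : ℤ)).toNat = 2 * C + 1 := by omega
    rw [this]
    apply le_of_eq
    ring
  have h1 : ((rts t c X).filter (fun e => ∀ q ∈ Q, ¬ q ∣ e.1)).card ≤
      (forms.sigma (fun F => Bq F.1 F.2.1 F.2.2 Q L)).card := by
    refine Finset.card_le_card_of_injOn g ?_ ?_
    · intro e he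
      simp only [coe_filter, Set.mem_ofPred_eq] at he
      obtain ⟨a1, a2, a3, a4, a6, a7, u₁, u₂, k, a5, a8⟩ := hg e he.1
      obtain ⟨m1, m2, m3, m4, m5⟩ := mem_rts.1 he.1
      rw [Finset.mem_coe, Finset.mem_sigma]
      refine ⟨?_, ?_⟩
      · rw [hforms]
        simp only [mem_filter, mem_product, Finset.mem_Icc]
        exact ⟨⟨abs_le.1 a1, abs_le.1 a2, abs_le.1 a3⟩, a4⟩
      · simp only [Bq, mem_filter, mem_product]
        refine ⟨⟨hbox _ e.1 m2 ?_, hbox _ e.1 m2 ?_⟩, ?_⟩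
        · nlinarith [sq_nonneg (g e).2.2]
        · nlinarith [sq_nonneg (g e).2.1]
        · intro q hq hd
          unfold Fq at hd
          rw [a7] at hd
          exact he.2 q hq (Int.natCast_dvd_natCast.1 hd)
    · intro e he f hf hef
      simp only [coe_filter, Set.mem_ofPred_eq] at he hf
      obtain ⟨-, -, -, -, -, a7, u₁, u₂, k, a5, a8⟩ := hg e he.1
      obtain ⟨-, -, -, -, -, b7, w₁, w₂, l, b5, b8⟩ := hg f hf.1
      rw [← hef] at b7 b5 b8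
      have hd : (e.1 : ℤ) = f.1 := a7.symm.trans b7
      have hd' : e.1 = f.1 := by exact_mod_cast hd
      obtain ⟨-, -, -, m4, m5⟩ := mem_rts.1 he.1
      obtain ⟨-, -, -, n4, n5⟩ := mem_rts.1 hf.1
      rw [← hd] at b8 n5
      exact Prod.ext hd' (data_inj a5 b5 a7 a8 b8 m4 m5 n4 n5)
  have hprod : 0 ≤ ∏ q ∈ Q, (1 - 1 / (q : ℝ)) := by
    refine Finset.prod_nonneg fun q hq => ?_
    have : (1 : ℝ) ≤ q := by exact_mod_cast (hQ q hq).1.pos
    have : 1 / (q : ℝ) ≤ 1 := by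
      rw [div_le_one (by linarith)]
      exact this
    linarith
  rw [Finset.card_sigma] at h1
  have hsum : ((∑ F ∈ forms, (Bq F.1 F.2.1 F.2.2 Q L).card : ℕ) : ℝ) ≤
      ∑ F ∈ forms, 9 * (L : ℝ) ^ 2 * ∏ q ∈ Q, (1 - 1 / (q : ℝ)) := by
    push_cast
    refine Finset.sum_le_sum fun F hF => ?_
    rw [hforms, mem_filter] at hF
    exact card_Bq (D := t ^ 2 - 4 * c) hQ hF.2 hNL
  calc (((rts t c X).filter (fun e => ∀ q ∈ Q, ¬ q ∣ e.1)).card : ℝ)
      ≤ ((∑ F ∈ forms, (Bq F.1 F.2.1 F.2.2 Q L).card : ℕ) : ℝ) := by exact_mod_cast h1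
    _ ≤ _ := hsum
    _ = forms.card * (9 * (L : ℝ) ^ 2 * ∏ q ∈ Q, (1 - 1 / (q : ℝ))) := by
        rw [Finset.sum_const, nsmul_eq_mul]
    _ ≤ ((2 * C + 1) ^ 3) * (9 * (C * X) * ∏ q ∈ Q, (1 - 1 / (q : ℝ))) := by
        have h3 : (forms.card : ℝ) ≤ (2 * C + 1) ^ 3 := by exact_mod_cast hfc
        refine mul_le_mul h3 ?_ (by positivity) (by positivity)
        refine mul_le_mul_of_nonneg_right ?_ hprod
        linarith
    _ = _ := by ring

/-- D1 -/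
theorem sft {t c : ℤ} (hns : ¬ IsSquare (t ^ 2 - 4 * c)) : S_SFT t c :=
  sft_of (Pool.Agent.W571.GT.rep hns)

end Pool.Agent.H643.Q648
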